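import Mathlib

/-!
# MP_be8152_al : a 4-algebra without any Bernstein operator

Over every field of characteristic different from 2 we exhibit a 4-algebra structure on `k^7`
which has no Bernstein operator.  The algebra has basis `x,y,a,b,c,s,w` (= `e₀,…,e₆`) and
nonzero products `x²=a, xy=b, y²=c, xa=s, b²=w, ac=-2w`.
-/

namespace Pool.Agent.Results.MP_be8152_al.NoBernsteinOperator

variable {k : Type*} [Field k]

/-- `mul` is a 4-algebra structure on the `k`-vector space `V`: a commutative bilinear product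
with `(x²)² = 0` for all `x`. -/
def IsFourAlgebra {V : Type*} [AddCommGroup V] [Module k V] (mul : V →ₗ[k] V →ₗ[k] V) : Prop :=
  (∀ x y, mul x y = mul y x) ∧ ∀ x, mul (mul x x) (mul x x) = 0

/-- `Ω` is a Bernstein operator for the product `mul` on `V`: `Ω² = Ω`, `x² · Ω(x) = 0` and
`Ω(x)² + Ω(x²) = x²` for all `x`. -/
def IsBernsteinOperator {V : Type*} [AddCommGroup V] [Module k V] (mul : V →ₗ[k] V →ₗ[k] V)
    (Ω : V →ₗ[k] V) : Prop :=
  (∀ x, Ω (Ω x) = Ω x) ∧ (∀ x, mul (mul x x) (Ω x) = 0) ∧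
    ∀ x, mul (Ω x) (Ω x) + Ω (mul x x) = mul x x

/-- The product of the 7-dimensional example. -/
def mulFun (u v : Fin 7 → k) : Fin 7 → k :=
  ![0, 0, u 0 * v 0, u 0 * v 1 + u 1 * v 0, u 1 * v 1, u 0 * v 2 + u 2 * v 0,
    u 3 * v 3 - 2 * (u 2 * v 4 + u 4 * v 2)]

/-- The product of the 7-dimensional example as a bilinear map. -/
def mul7 (k : Type*) [Field k] : (Fin 7 → k) →ₗ[k] (Fin 7 → k) →ₗ[k] (Fin 7 → k) :=
  LinearMap.mk₂ k mulFun
    (by intro a b c; ext i; fin_cases i <;> simp [mulFun] <;> ring)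
    (by intro a b c; ext i; fin_cases i <;> simp [mulFun] <;> ring)
    (by intro a b c; ext i; fin_cases i <;> simp [mulFun] <;> ring)
    (by intro a b c; ext i; fin_cases i <;> simp [mulFun] <;> ring)

@[simp] lemma mul7_apply (u v : Fin 7 → k) : mul7 k u v = mulFun u v := rfl

lemma isFour : IsFourAlgebra (mul7 k) := by
  refine ⟨?_, ?_⟩
  · intro x y
    ext i; fin_cases i <;> simp [mulFun] <;> ring
  · intro x
    ext i; fin_cases i <;> simp [mulFun] <;> ring

/-- basis vectors -/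
def e (i : Fin 7) : Fin 7 → k := Pi.single i 1

lemma noOp (h2 : (2 : k) ≠ 0) (Ω : (Fin 7 → k) →ₗ[k] (Fin 7 → k))
    (hΩ : IsBernsteinOperator (mul7 k) Ω) : False := by
  obtain ⟨hid, hA, hB⟩ := hΩ
  have two_inj : ∀ z z' : Fin 7 → k, (2 : k) • z = (2 : k) • z' → z = z' := by
    intro z z' h
    exact smul_right_injective _ h2 h
  -- polarisation of `Ω(x)² + Ω(x²) = x²`
  have hB2 : ∀ u v, Ω (mulFun u v) = mulFun u v - mulFun (Ω u) (Ω v) := by
    intro u v
    have h1 := hB (u + v)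
    have h2' := hB u
    have h3 := hB v
    have hc : ∀ a b : Fin 7 → k, mul7 k a b = mul7 k b a := isFour.1
    have : (2 : k) • Ω (mul7 k u v) = (2 : k) • (mul7 k u v - mul7 k (Ω u) (Ω v)) := by
      simp only [map_add, LinearMap.add_apply] at h1
      rw [hc v u, hc (Ω v) (Ω u)] at h1
      have e1 : (2 : k) • Ω (mul7 k u v) = Ω (mul7 k u v) + Ω (mul7 k u v) := two_smul _ _
      have e2 : (2 : k) • (mul7 k u v - mul7 k (Ω u) (Ω v)) =
        (mul7 k u v - mul7 k (Ω u) (Ω v)) + (mul7 k u v - mul7 k (Ω u) (Ω v)) := two_smul _ _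
      rw [e1, e2]
      linear_combination (exp := 1) h1 - h2' - h3
    exact two_inj _ _ this
  -- polarisation of `x² Ω(x) = 0`
  have hA2 : ∀ u v z, mulFun (mulFun u v) (Ω z) + mulFun (mulFun v z) (Ω u)
      + mulFun (mulFun u z) (Ω v) = 0 := by
    intro u v z
    have hc : ∀ a b : Fin 7 → k, mul7 k a b = mul7 k b a := isFour.1
    have h1 := hA (u + v + z)
    have h2' := hA (u + v)
    have h3 := hA (v + z)
    have h4 := hA (u + z)
    have h5 := hA u
    have h6 := hA v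
    have h7 := hA z
    have : (2 : k) • (mul7 k (mul7 k u v) (Ω z) + mul7 k (mul7 k v z) (Ω u)
      + mul7 k (mul7 k u z) (Ω v)) = (2 : k) • (0 : Fin 7 → k) := by
      simp only [map_add, LinearMap.add_apply] at h1 h2' h3 h4
      rw [hc v u, hc z u, hc z v] at h1
      rw [hc v u] at h2'
      rw [hc z v] at h3
      rw [hc z u] at h4
      rw [two_smul, smul_zero]
      linear_combination (exp := 1) h1 - h2' - h3 - h4 + h5 + h6 + h7
    exact two_inj _ _ this
  -- images of basis vectors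
  set X := Ω (e 0) with hX
  set Y := Ω (e 1) with hY
  have m00 : mulFun (e 0) (e 0) = (e 2 : Fin 7 → k) := by
    ext i; fin_cases i <;> simp [mulFun, e]
  have m01 : mulFun (e 0) (e 1) = (e 3 : Fin 7 → k) := by
    ext i; fin_cases i <;> simp [mulFun, e]
  have m11 : mulFun (e 1) (e 1) = (e 4 : Fin 7 → k) := by
    ext i; fin_cases i <;> simp [mulFun, e]
  have m02 : mulFun (e 0) (e 2) = (e 5 : Fin 7 → k) := by
    ext i; fin_cases i <;> simp [mulFun, e]
  have m33 : mulFun (e 3) (e 3) = (e 6 : Fin 7 → k) := by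
    ext i; fin_cases i <;> simp [mulFun, e]
  have m24 : mulFun (e 2) (e 4) = ((-2 : k) • e 6 : Fin 7 → k) := by
    ext i; fin_cases i <;> simp [mulFun, e]
  have O2 : Ω (e 2) = e 2 - mulFun X X := by rw [← m00]; exact hB2 _ _
  have O3 : Ω (e 3) = e 3 - mulFun X Y := by rw [← m01]; exact hB2 _ _
  have O4 : Ω (e 4) = e 4 - mulFun Y Y := by rw [← m11]; exact hB2 _ _
  have O5 : Ω (e 5) = e 5 - mulFun X (Ω (e 2)) := by rw [← m02]; exact hB2 _ _
  have O6 : Ω (e 6) = e 6 - mulFun (Ω (e 3)) (Ω (e 3)) := by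
    conv_lhs => rw [← m33]
    rw [hB2, m33]
  have O6' : (-2 : k) • Ω (e 6) = (-2 : k) • e 6 - mulFun (Ω (e 2)) (Ω (e 4)) := by
    rw [← map_smul, ← m24]; exact hB2 _ _
  have decomp : ∀ v : Fin 7 → k, Ω v = v 0 • X + v 1 • Y + v 2 • Ω (e 2) + v 3 • Ω (e 3)
      + v 4 • Ω (e 4) + v 5 • Ω (e 5) + v 6 • Ω (e 6) := by
    intro v
    have : v = v 0 • e 0 + v 1 • e 1 + v 2 • e 2 + v 3 • e 3 + v 4 • e 4 + v 5 • e 5
        + v 6 • e 6 := by
      ext i; fin_cases i <;> simp [e]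
    conv_lhs => rw [this]
    simp only [map_add, map_smul]
    rfl
  -- p = 0
  have hp : X 0 = 0 := by
    have h := congrFun (hA (e 0)) 5
    simp only [mul7_apply] at h
    rw [m00, ← hX] at h
    simpa [mulFun, e] using h
  -- idempotency modulo V²
  have sq : ∀ (u v : Fin 7 → k), mulFun u v 0 = 0 ∧ mulFun u v 1 = 0 := by
    intro u v; exact ⟨by simp [mulFun], by simp [mulFun]⟩
  have c0 : ∀ v : Fin 7 → k, Ω v 0 = v 0 * X 0 + v 1 * Y 0 := by
    intro v
    rw [decomp v, O2, O3, O4, O5, O6]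
    simp [sq, e]
  have c1 : ∀ v : Fin 7 → k, Ω v 1 = v 0 * X 1 + v 1 * Y 1 := by
    intro v
    rw [decomp v, O2, O3, O4, O5, O6]
    simp [sq, e]
  have i1 : X 0 * X 0 + X 1 * Y 0 = X 0 := by rw [← c0 X, hid (e 0)]
  have i2 : X 0 * X 1 + X 1 * Y 1 = X 1 := by rw [← c1 X, hid (e 0)]
  have i3 : Y 0 * X 0 + Y 1 * Y 0 = Y 0 := by rw [← c0 Y, hid (e 1)]
  have i4 : Y 0 * X 1 + Y 1 * Y 1 = Y 1 := by rw [← c1 Y, hid (e 1)]
  -- comparing the two formulas for `Ω w`
  have key : (X 0 - Y 1) ^ 2 = 2 * (X 1 * Y 0) := by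
    have h6 := congrFun O6 6
    have h6' := congrFun O6' 6
    rw [O3] at h6
    rw [O2, O4] at h6'
    simp [mulFun, e] at h6 h6'
    have : 2 * ((X 0 - Y 1) ^ 2 - 2 * (X 1 * Y 0)) = 0 := by
      linear_combination 2 * h6 + h6'
    rcases mul_eq_zero.1 this with h | h
    · exact absurd h h2
    · linear_combination h
  simp only [hp] at i1 i2 i3 i4 key
  have hqr : X 1 * Y 0 = 0 := by linear_combination i1
  have ht : Y 1 = 0 := by
    have : Y 1 ^ 2 = 0 := by linear_combination key + 2 * hqr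
    exact pow_eq_zero_iff (two_ne_zero) |>.1 this
  have hr : X 1 = 0 := by rw [ht] at i2; linear_combination -i2
  have hq : Y 0 = 0 := by rw [ht] at i3; linear_combination -i3
  -- final contradiction
  have hfin := hA2 (e 0 - X) (e 1 - Y) (e 3)
  have z1 : Ω (e 0 - X) = 0 := by rw [map_sub, hid (e 0), ← hX, sub_self]
  have z2 : Ω (e 1 - Y) = 0 := by rw [map_sub, hid (e 1), ← hY, sub_self]
  rw [z1, z2, O3] at hfin
  have h6 := congrFun hfin 6
  simp [mulFun, e, hp, ht, hr, hq] at h6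

/-- **Negative answer to Q1 of MP_be8152_al.** For every field `k` of characteristic not two
there is a 4-algebra structure on `k^7` which has no Bernstein operator at all, so that
`BO(k^7,·)/≈` is empty. -/
theorem result (k : Type*) [Field k] (h2 : (2 : k) ≠ 0) :
    ∃ mul : (Fin 7 → k) →ₗ[k] (Fin 7 → k) →ₗ[k] (Fin 7 → k),
      IsFourAlgebra mul ∧ ¬ ∃ Ω : (Fin 7 → k) →ₗ[k] (Fin 7 → k), IsBernsteinOperator mul Ω :=
  ⟨mul7 k, isFour, fun ⟨Ω, hΩ⟩ => noOp h2 Ω hΩ⟩

end Pool.Agent.Results.MP_be8152_al.NoBernsteinOperator
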